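import Pool.Agent.H447.QR.Stm

/-!
# Task SD: the points `P₀ + 2 Q` are represented by the normal form of `P₀`
-/

set_option autoImplicit false

open WeierstrassCurve Pool.Agent.H447.QR

namespace Pool.Agent.H234.QR.SD

theorem idn (u₁ u₂ t σ a X₀ Y₀ X Y v₁ : ℚ) (hv : v₁ = (t + σ) * (u₁ - u₂) / 2)
    (ha : a = t * σ * (u₁ - u₂) - (u₁ ^ 2 + u₁ * u₂ + u₂ ^ 2))
    (hX0 : X₀ = t ^ 2 - u₁ - u₂) (hY0 : Y₀ = v₁ + t * (X₀ - u₁))
    (hX : X = σ ^ 2 - u₁ - u₂) (hY : Y = -(v₁ + σ * (X - u₁))) :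
    (u₁ - u₂) ^ 2 = (nf a X₀ Y₀).v t 1 ∧ 48 * (u₁ - u₂) ^ 2 * X = (nf a X₀ Y₀).h4 t 1 ∧
      64 * (u₁ - u₂) ^ 3 * Y = (nf a X₀ Y₀).h6 t 1 := by
  subst hY hX hY0 hX0 ha hv
  simp only [nf, Qf.v, Qf.h4, Qf.h6]
  refine ⟨?_, ?_, ?_⟩ <;> ring

theorem eqn {a b x y : ℚ} (h : (crv a b).toAffine.Nonsingular x y) :
    y ^ 2 = x ^ 3 + a * x + b := by
  have h1 := (Affine.equation_iff _ _).1 h.1
  simpa using h1

theorem t_SD : S_SD := by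
  intro a b X₀ Y₀ h Q _ hne
  set P₀ : Pt a b := Affine.Point.some X₀ Y₀ h with hP0
  by_cases hQ0 : Q = 0
  · subst hQ0
    rw [add_zero, add_zero, hP0]
    refine ⟨1, 0, 1, X₀, Y₀, h, one_ne_zero, ?_, ?_, ?_, rfl⟩
    · simp only [nf, Qf.v]; ring
    · simp only [nf, Qf.h4]; ring
    · simp only [nf, Qf.h6]; ring
  by_cases hQP : Q = -P₀
  · have e : P₀ + (Q + Q) = -P₀ := by rw [hQP]; abel
    rw [e, hP0, Affine.Point.neg_some]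
    refine ⟨1, 0, -1, X₀, _, _, by norm_num, ?_, ?_, ?_, rfl⟩
    · simp only [nf, Qf.v]; ring
    · simp only [nf, Qf.h4]; ring
    · simp only [nf, Qf.h6, Affine.negY]; ring
  obtain ⟨Q₂, hQ2⟩ : ∃ Q₂ : Pt a b, Q₂ = -P₀ - Q := ⟨_, rfl⟩
  have hQ2ne : Q₂ ≠ 0 := by
    intro h0
    apply hQP
    rw [h0] at hQ2
    have : Q = -P₀ - (-P₀ - Q) := by abel
    rw [this, ← hQ2, sub_zero]
  have hsum : Q + Q₂ = -P₀ := by rw [hQ2]; abel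
  have hdiff : P₀ + (Q + Q) = Q + -Q₂ := by rw [hQ2]; abel
  rw [hdiff] at hne ⊢
  rcases Q with _ | ⟨u₁, v₁, k₁⟩
  · exact absurd rfl hQ0
  rcases Q₂ with _ | ⟨u₂, v₂, k₂⟩
  · exact absurd rfl hQ2ne
  have hu : u₁ ≠ u₂ := by
    intro huu
    rcases (Affine.Point.X_eq_iff (h₁ := k₁) (h₂ := k₂)).1 huu with h1 | h1
    · apply hne
      rw [h1, add_neg_cancel]
    · rw [h1, neg_add_cancel] at hsum
      have h2 : P₀ = 0 := neg_eq_zero.1 hsum.symm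
      exact Affine.Point.some_ne_zero h h2
  have hd : u₁ - u₂ ≠ 0 := sub_ne_zero.2 hu
  have e1 := eqn k₁
  have e2 := eqn k₂
  rw [hP0, Affine.Point.neg_some, Affine.Point.add_of_X_ne hu] at hsum
  injection hsum with hx hy
  set t : ℚ := (v₁ - v₂) / (u₁ - u₂) with ht
  have hsl : (crv a b).toAffine.slope u₁ u₂ v₁ v₂ = t := Affine.slope_of_X_ne hu
  rw [hsl] at hx hy
  rw [Affine.Point.neg_some, Affine.Point.add_of_X_ne hu]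
  set σ : ℚ := (v₁ + v₂) / (u₁ - u₂) with hσ
  have hsl2 : (crv a b).toAffine.slope u₁ u₂ v₁ ((crv a b).toAffine.negY u₂ v₂) = σ := by
    rw [Affine.slope_of_X_ne hu, hσ]
    congr 1
    simp only [Affine.negY]; ring
  have ht' : t * (u₁ - u₂) = v₁ - v₂ := by rw [ht]; field_simp
  have hσ' : σ * (u₁ - u₂) = v₁ + v₂ := by rw [hσ]; field_simp
  have hv1 : v₁ = (t + σ) * (u₁ - u₂) / 2 := by linear_combination -(ht' + hσ') / 2
  have ha : a = t * σ * (u₁ - u₂) - (u₁ ^ 2 + u₁ * u₂ + u₂ ^ 2) := by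
    have h3 : (u₁ - u₂) * a = (u₁ - u₂) * (t * σ * (u₁ - u₂) - (u₁ ^ 2 + u₁ * u₂ + u₂ ^ 2)) := by
      have h4 : (t * (u₁ - u₂)) * (σ * (u₁ - u₂)) = (v₁ - v₂) * (v₁ + v₂) := by rw [ht', hσ']
      linear_combination e2 - e1 - h4
    exact mul_left_cancel₀ hd h3
  have hX0 : X₀ = t ^ 2 - u₁ - u₂ := by
    rw [← hx]; simp only [Affine.addX]; ring
  have hY0 : Y₀ = v₁ + t * (X₀ - u₁) := by
    simp only [Affine.addY, Affine.negAddY, Affine.negY] at hy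
    rw [hx] at hy
    linear_combination hy
  refine ⟨t, 1, u₁ - u₂, _, _, _, hd, ?_, ?_, ?_, rfl⟩
  · exact (idn u₁ u₂ t σ a X₀ Y₀ _ _ v₁ hv1 ha hX0 hY0 rfl rfl).1
  · rw [hsl2]
    refine (idn u₁ u₂ t σ a X₀ Y₀ _ _ v₁ hv1 ha hX0 hY0 ?_ rfl).2.1
    simp only [Affine.addX]; ring
  · rw [hsl2]
    refine (idn u₁ u₂ t σ a X₀ Y₀ _ _ v₁ hv1 ha hX0 hY0 rfl ?_).2.2
    simp only [Affine.addY, Affine.negAddY, Affine.negY, Affine.addX]; ring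

end Pool.Agent.H234.QR.SD
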